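import Pool.Agent.helper40.SU.SpecB

/-! # Project su (MP_c66272_nt), row CHS: character sums over a progression -/

set_option autoImplicit false

open Finset

namespace Pool.Agent.SU

/-- an element with symbol `-1` -/
theorem CHS_nonres (N : ℕ) (hN : Odd N) (hs : ¬ IsSquare N) : ∃ a : ℕ, jacobiSym a N = -1 := by
  obtain ⟨e, r, hre, he⟩ := Nat.sq_mul_squarefree N
  have he1 : e ≠ 1 := by
    rintro rfl
    apply hs
    exact ⟨r, by rw [← hre]; ring⟩
  obtain ⟨p, hp, hpe⟩ := Nat.exists_prime_and_dvd he1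
  obtain ⟨e', rfl⟩ := hpe
  have hpe' : ¬ p ∣ e' := by
    intro h
    have h1 : p * p ∣ p * e' := mul_dvd_mul_left p h
    exact hp.one_lt.ne' (Nat.isUnit_iff.1 (he p h1))
  have hN0 : N ≠ 0 := by
    rintro rfl
    exact absurd hN (by decide)
  obtain ⟨v, m, hpm, hNm⟩ := Nat.exists_eq_pow_mul_and_not_dvd hN0 p hp.ne_one
  haveI : Fact p.Prime := ⟨hp⟩
  have hpN : p ∣ N := by
    rw [← hre]
    exact dvd_mul_of_dvd_right (dvd_mul_right p e') _
  have hp2 : p ≠ 2 := by
    rintro rfl
    have := hN.not_two_dvd_nat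
    exact this hpN
  obtain ⟨x, hx⟩ := FiniteField.exists_nonsquare (F := ZMod p) (by rwa [ZMod.ringChar_zmod_n])
  have hcop : Nat.Coprime p m := (Nat.Prime.coprime_iff_not_dvd hp).2 hpm
  obtain ⟨a, ha1, ha2⟩ := Nat.chineseRemainder hcop x.val 1
  have hax : (a : ZMod p) = x := by
    have h := (ZMod.natCast_eq_natCast_iff a x.val p).2 ha1
    rw [h, ZMod.natCast_zmod_val]
  have hx0 : x ≠ 0 := by
    rintro rfl
    exact hx ⟨0, by ring⟩
  have hap : Nat.Coprime a p := by
    rw [Nat.coprime_comm, Nat.Prime.coprime_iff_not_dvd hp]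
    intro h
    apply hx0
    rw [← hax]
    exact (ZMod.natCast_eq_zero_iff a p).2 h
  have ham : Nat.Coprime a m := by
    have h := Nat.ModEq.gcd_eq ha2
    rw [Nat.gcd_one_left] at h
    exact h
  have haN : Nat.Coprime a N := by
    rw [hNm]
    exact Nat.Coprime.mul_right (Nat.Coprime.pow_right v hap) ham
  have har : Nat.Coprime a r := by
    apply Nat.Coprime.coprime_dvd_right _ haN
    rw [← hre]
    exact dvd_mul_of_dvd_left (dvd_pow_self r two_ne_zero) _
  have hem : e' ∣ m := by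
    have h1 : e' ∣ p ^ v * m := by
      rw [← hNm, ← hre]
      exact dvd_mul_of_dvd_right (dvd_mul_left e' p) _
    have h2 : Nat.Coprime e' (p ^ v) :=
      Nat.Coprime.pow_right v ((Nat.Prime.coprime_iff_not_dvd hp).2 hpe').symm
    exact h2.dvd_of_dvd_mul_left h1
  have hr0 : r ≠ 0 := by
    rintro rfl
    apply hN0
    rw [← hre]
    ring
  have he0 : e' ≠ 0 := by
    rintro rfl
    apply hN0
    rw [← hre]
    ring
  refine ⟨a, ?_⟩
  rw [← hre, jacobiSym.mul_right' (a : ℤ) (pow_ne_zero 2 hr0) (mul_ne_zero hp.ne_zero he0),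
    jacobiSym.mul_right' (a : ℤ) hp.ne_zero he0, jacobiSym.pow_right]
  have h1 : jacobiSym (a : ℤ) r ^ 2 = 1 := by
    apply jacobiSym.sq_one
    rw [Int.gcd_natCast_natCast]
    exact har
  have h2 : jacobiSym (a : ℤ) p = -1 := by
    rw [← jacobiSym.legendreSym.to_jacobiSym]
    rw [legendreSym.eq_neg_one_iff', hax]
    exact hx
  have h3 : jacobiSym (a : ℤ) e' = 1 := by
    have h4 : jacobiSym (a : ℤ) e' = jacobiSym (1 : ℤ) e' := by
      apply jacobiSym.mod_left'
      have h5 : a ≡ 1 [MOD e'] := ha2.of_dvd hem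
      have h6 : ((a % e' : ℕ) : ℤ) = ((1 % e' : ℕ) : ℤ) := by rw [h5]
      push_cast at h6
      exact h6
    rw [h4, jacobiSym.one_left]
  rw [h1, h2, h3]
  norm_num

/-- sums of a function with vanishing sums over full periods -/
theorem CHS_period (N : ℕ) (h : ℕ → ℤ) (hp : ∀ s, ∑ i ∈ Ico s (s + N), h i = 0)
    (hb : ∀ i, |h i| ≤ 1) (hN : 0 < N) :
    ∀ L s : ℕ, |∑ i ∈ Ico s (s + L), h i| ≤ N := by
  intro L
  induction L using Nat.strong_induction_on with
  | _ L ih =>
    intro s
    by_cases hL : L < N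
    · calc |∑ i ∈ Ico s (s + L), h i| ≤ ∑ i ∈ Ico s (s + L), |h i| := abs_sum_le_sum_abs _ _
        _ ≤ ∑ _i ∈ Ico s (s + L), (1 : ℤ) := Finset.sum_le_sum fun i _ => hb i
        _ = L := by simp
        _ ≤ N := by exact_mod_cast hL.le
    · obtain ⟨L', rfl⟩ := Nat.exists_eq_add_of_le (not_lt.1 hL)
      have h1 := Finset.sum_Ico_consecutive h (Nat.le_add_right s N)
        (Nat.le_add_right (s + N) L')
      rw [hp s, zero_add] at h1
      rw [← add_assoc, ← h1]
      exact ih L' (by omega) (s + N)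

theorem CHS_full (N : ℕ) [NeZero N] (H : ZMod N → ℤ) (s : ℕ) :
    ∑ i ∈ Ico s (s + N), H (i : ZMod N) = ∑ y : ZMod N, H y := by
  classical
  have hinj : Set.InjOn (fun i : ℕ => (i : ZMod N)) (Ico s (s + N) : Finset ℕ) := by
    intro i hi j hj hij
    rw [Finset.mem_coe, Finset.mem_Ico] at hi hj
    have h1 : i ≡ j [MOD N] := (ZMod.natCast_eq_natCast_iff i j N).1 hij
    rcases le_total i j with h | h
    · have h2 := (Nat.modEq_iff_dvd' h).1 h1
      have h3 := Nat.eq_zero_of_dvd_of_lt h2 (by omega)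
      omega
    · have h2 := (Nat.modEq_iff_dvd' h).1 h1.symm
      have h3 := Nat.eq_zero_of_dvd_of_lt h2 (by omega)
      omega
  have himg : (Ico s (s + N)).image (fun i : ℕ => (i : ZMod N)) = Finset.univ := by
    apply Finset.eq_univ_of_card
    rw [Finset.card_image_of_injOn hinj, Nat.card_Ico, ZMod.card]
    omega
  rw [← himg, Finset.sum_image hinj]

theorem CHS : CHS_stmt := by
  classical
  intro N M c hN4 hsq hM hMN hc a b
  have hNodd : Odd N := Nat.odd_iff.2 (by omega)
  have hN0 : 0 < N := by omega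
  haveI : NeZero N := ⟨hN0.ne'⟩
  have hN1 : N ≠ 1 := by
    rintro rfl
    exact hsq ⟨1, by norm_num⟩
  have hM0 : 0 < M := by
    rcases Nat.eq_zero_or_pos M with h | h
    · rw [h, Nat.coprime_zero_left] at hMN
      exact absurd hMN hN1
    · exact h
  -- the function on `ZMod N`
  let F : ZMod N → ℤ := fun x => jacobiSym (x.val : ℤ) N
  have hF : ∀ g : ℕ, F (g : ZMod N) = jacobiSym (g : ℤ) N := by
    intro g
    show jacobiSym (((g : ZMod N).val : ℕ) : ℤ) N = jacobiSym (g : ℤ) N
    rw [ZMod.val_natCast]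
    push_cast
    exact (jacobiSym.mod_left (g : ℤ) N).symm
  have hsum0 : ∑ x : ZMod N, F x = 0 := by
    obtain ⟨n, hn⟩ := CHS_nonres N hNodd hsq
    have hcop : Nat.Coprime n N := by
      by_contra h
      have h1 : jacobiSym (n : ℤ) N = 0 := by
        rw [jacobiSym.eq_zero_iff_not_coprime, Int.gcd_natCast_natCast]
        exact h
      rw [h1] at hn
      norm_num at hn
    have hmul : ∀ x : ZMod N, F ((n : ZMod N) * x) = - F x := by
      intro x
      have h1 : (n : ZMod N) * x = ((n * x.val : ℕ) : ZMod N) := by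
        push_cast
        rw [ZMod.natCast_zmod_val]
      rw [h1, hF]
      push_cast
      rw [jacobiSym.mul_left, hn]
      show -1 * jacobiSym (x.val : ℤ) N = - F x
      ring
    have hbij : Function.Bijective (fun x : ZMod N => (n : ZMod N) * x) := by
      rw [← Finite.injective_iff_bijective]
      intro x y hxy
      have hu : IsUnit (n : ZMod N) := (ZMod.isUnit_iff_coprime n N).2 hcop
      exact hu.mul_left_cancel hxy
    have h2 : ∑ x : ZMod N, F ((n : ZMod N) * x) = ∑ x : ZMod N, F x :=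
      Fintype.sum_bijective _ hbij _ _ (fun _ => rfl)
    simp only [hmul, Finset.sum_neg_distrib] at h2
    linarith
  obtain ⟨c₀, hc₀⟩ : ∃ c₀, c₀ = c % M := ⟨_, rfl⟩
  have hc₀M : c₀ < M := by rw [hc₀]; exact Nat.mod_lt _ hM0
  let h : ℕ → ℤ := fun i => jacobiSym ((c₀ + M * i : ℕ) : ℤ) N
  have hper : ∀ s, ∑ i ∈ Ico s (s + N), h i = 0 := by
    intro s
    have h1 : ∀ i : ℕ, h i = F ((c₀ : ZMod N) + (M : ZMod N) * (i : ZMod N)) := by
      intro i
      have h2 := hF (c₀ + M * i)
      push_cast at h2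
      show jacobiSym ((c₀ + M * i : ℕ) : ℤ) N = _
      push_cast
      exact h2.symm
    simp only [h1]
    rw [CHS_full N (fun y => F ((c₀ : ZMod N) + (M : ZMod N) * y)) s, ← hsum0]
    have hbij : Function.Bijective (fun x : ZMod N => (c₀ : ZMod N) + (M : ZMod N) * x) := by
      rw [← Finite.injective_iff_bijective]
      intro x y hxy
      have hu : IsUnit (M : ZMod N) := (ZMod.isUnit_iff_coprime M N).2 hMN
      exact hu.mul_left_cancel (add_left_cancel hxy)
    exact Fintype.sum_bijective _ hbij _ _ (fun _ => rfl)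
  have hb1 : ∀ i, |h i| ≤ 1 := by
    intro i
    rcases jacobiSym.trichotomy ((c₀ + M * i : ℕ) : ℤ) N with h1 | h1 | h1 <;>
      (show |jacobiSym ((c₀ + M * i : ℕ) : ℤ) N| ≤ 1; rw [h1]; norm_num)
  -- the interval of the i
  have hex : ∀ x : ℕ, ∃ i, x < c₀ + M * i := fun x => ⟨x + 1, by nlinarith⟩
  let fd : ℕ → ℕ := fun x => Nat.find (hex x)
  have hfd : ∀ x i, fd x ≤ i ↔ x < c₀ + M * i := by
    intro x i
    constructor
    · intro hi
      have h1 : x < c₀ + M * fd x := Nat.find_spec (hex x)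
      have h2 : M * fd x ≤ M * i := Nat.mul_le_mul_left M hi
      omega
    · intro hi
      exact Nat.find_min' (hex x) hi
  have hsum : ∑ g ∈ (Ioc a b).filter (fun g => g ≡ c [MOD M]), jacobiSym N g =
      ∑ i ∈ Ico (fd a) (fd b), h i := by
    refine Finset.sum_nbij' (fun g => g / M) (fun i => c₀ + M * i) ?_ ?_ ?_ ?_ ?_
    · intro g hg
      rw [Finset.mem_filter, Finset.mem_Ioc] at hg
      have h1 : g % M = c₀ := by rw [hc₀]; exact hg.2
      have h2 : c₀ + M * (g / M) = g := by rw [← h1]; exact Nat.mod_add_div g M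
      rw [Finset.mem_Ico, hfd, h2]
      refine ⟨hg.1.1, ?_⟩
      rw [← not_le, hfd, h2]
      exact not_lt.2 hg.1.2
    · intro i hi
      rw [Finset.mem_Ico, hfd] at hi
      rw [Finset.mem_filter, Finset.mem_Ioc]
      refine ⟨⟨hi.1, ?_⟩, ?_⟩
      · have h1 := hi.2
        rw [← not_le, hfd] at h1
        exact not_lt.1 h1
      · show (c₀ + M * i) % M = c % M
        rw [Nat.add_mul_mod_self_left, hc₀, Nat.mod_mod]
    · intro g hg
      rw [Finset.mem_filter] at hg
      have h1 : g % M = c₀ := by rw [hc₀]; exact hg.2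
      show c₀ + M * (g / M) = g
      rw [← h1]
      exact Nat.mod_add_div g M
    · intro i _
      show (c₀ + M * i) / M = i
      rw [Nat.add_mul_div_left _ _ hM0, Nat.div_eq_of_lt hc₀M, zero_add]
    · intro g hg
      rw [Finset.mem_filter] at hg
      have h1 : g % M = c₀ := by rw [hc₀]; exact hg.2
      have h2 : c₀ + M * (g / M) = g := by rw [← h1]; exact Nat.mod_add_div g M
      have hgodd : Odd g := by
        rw [← Nat.not_even_iff_odd]
        intro hge
        have h3 : 2 ∣ M := hM.two_dvd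
        have h4 : g ≡ c [MOD 2] := hg.2.of_dvd h3
        rw [← Nat.not_even_iff_odd] at hc
        apply hc
        rw [Nat.even_iff] at hge ⊢
        rw [← hge]
        exact h4.symm
      show jacobiSym (N : ℤ) g = jacobiSym ((c₀ + M * (g / M) : ℕ) : ℤ) N
      rw [h2]
      exact jacobiSym.quadratic_reciprocity_one_mod_four hN4 hgodd
  rw [hsum]
  have h5 := CHS_period N h hper hb1 hN0 (fd b - fd a) (fd a)
  have h6 : Ico (fd a) (fd b) = Ico (fd a) (fd a + (fd b - fd a)) := by
    ext i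
    rw [Finset.mem_Ico, Finset.mem_Ico]
    omega
  rw [h6]
  exact h5

end Pool.Agent.SU
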