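import Pool.Agent.helper40.SU.SpecB

/-! # Project su (MP_c66272_nt), row JBG: the large `j` -/

set_option autoImplicit false

open Finset

namespace Pool.Agent.SU

theorem JBG_large (a c : ℝ) (ha : 0 < a) : ∃ n₀ : ℕ, ∀ n : ℕ, n₀ ≤ n → c ≤ (n : ℝ) ^ a := by
  have h := (tendsto_rpow_atTop ha).comp (tendsto_natCast_atTop_atTop (R := ℝ))
  exact Filter.eventually_atTop.1 (h.eventually_ge_atTop c)

/-- the sum over `D'` for fixed `D` -/
theorem JBG_inner (S : Finset ℕ) (D : ℕ) (E : ℕ → ℝ) (X Y : ℝ) (hD : D ≠ 0)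
    (hX0 : 0 ≤ X) (hY0 : 0 ≤ Y)
    (hdiv : (D.divisors.card : ℝ) ≤ Y) (hom : ∀ d ∈ D.divisors, (20 : ℝ) ^ (om d) ≤ Y)
    (hcard : ∀ d ∈ D.divisors, ((S.filter (fun D' => d ∣ D')).card : ℝ) ≤ 4 ^ (om d) * E d)
    (hd : ∀ d ∈ D.divisors, (d : ℝ) ^ (1 / 10 : ℝ) * E d ≤ X) :
    ∑ D' ∈ S, (5 : ℝ) ^ (om (D.gcd D')) * ((D.gcd D' : ℕ) : ℝ) ^ (1 / 10 : ℝ) ≤ Y * (Y * X) := by
  classical
  let w : ℕ → ℝ := fun d => (5 : ℝ) ^ (om d) * (d : ℝ) ^ (1 / 10 : ℝ)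
  have hw0 : ∀ d, 0 ≤ w d := fun d => by
    show 0 ≤ (5 : ℝ) ^ (om d) * (d : ℝ) ^ (1 / 10 : ℝ)
    positivity
  calc ∑ D' ∈ S, (5 : ℝ) ^ (om (D.gcd D')) * ((D.gcd D' : ℕ) : ℝ) ^ (1 / 10 : ℝ)
      ≤ ∑ D' ∈ S, ∑ d ∈ D.divisors, (if d ∣ D' then w d else 0) := by
        refine Finset.sum_le_sum fun D' _ => ?_
        have h1 : D.gcd D' ∈ D.divisors := Nat.mem_divisors.2 ⟨Nat.gcd_dvd_left _ _, hD⟩
        have h2 := Finset.single_le_sum (f := fun d => if d ∣ D' then w d else 0)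
          (fun d _ => by
            show 0 ≤ (if d ∣ D' then w d else 0)
            split_ifs
            · exact hw0 d
            · exact le_rfl) h1
        rw [if_pos (Nat.gcd_dvd_right D D')] at h2
        exact h2
    _ = ∑ d ∈ D.divisors, ∑ D' ∈ S, (if d ∣ D' then w d else 0) := Finset.sum_comm
    _ = ∑ d ∈ D.divisors, ((S.filter (fun D' => d ∣ D')).card : ℝ) * w d := by
        refine Finset.sum_congr rfl fun d _ => ?_
        rw [← Finset.sum_filter, Finset.sum_const, nsmul_eq_mul]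
    _ ≤ ∑ _d ∈ D.divisors, Y * X := by
        refine Finset.sum_le_sum fun d hdd => ?_
        calc ((S.filter (fun D' => d ∣ D')).card : ℝ) * w d
            ≤ (4 ^ (om d) * E d) * w d := mul_le_mul_of_nonneg_right (hcard d hdd) (hw0 d)
          _ = (20 : ℝ) ^ (om d) * ((d : ℝ) ^ (1 / 10 : ℝ) * E d) := by
              show (4 ^ (om d) * E d) * ((5 : ℝ) ^ (om d) * (d : ℝ) ^ (1 / 10 : ℝ)) = _
              have h4 : (20 : ℝ) ^ (om d) = 4 ^ (om d) * 5 ^ (om d) := by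
                rw [← mul_pow]
                norm_num
              rw [h4]
              ring
          _ ≤ (20 : ℝ) ^ (om d) * X := mul_le_mul_of_nonneg_left (hd d hdd) (by positivity)
          _ ≤ Y * X := mul_le_mul_of_nonneg_right (hom d hdd) hX0
    _ = (D.divisors.card : ℝ) * (Y * X) := by rw [Finset.sum_const, nsmul_eq_mul]
    _ ≤ _ := mul_le_mul_of_nonneg_right hdiv (mul_nonneg hY0 hX0)

theorem JBG_cop (q D₀ D : ℕ) (hD₀ : Odd D₀) (hq : D₀.Coprime q)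
    (h : D % (64 * q) = D₀ % (64 * q)) : D.Coprime (2 * q) := by
  have h1 : D ≡ D₀ [MOD (2 * q)] := by
    have h2 : D ≡ D₀ [MOD (64 * q)] := h
    exact h2.of_dvd ⟨32, by ring⟩
  have h3 := Nat.ModEq.gcd_eq h1
  have h4 : D₀.Coprime (2 * q) := Nat.Coprime.mul_right (Nat.coprime_two_right.2 hD₀) hq
  show D.gcd (2 * q) = 1
  rw [h3]
  exact h4

theorem JBG (hEPJ : EPJ_stmt) (hTAU : TAU_stmt) : JBG_stmt := by
  classical
  obtain ⟨Z1, hE⟩ := hEPJ
  obtain ⟨Z2, hT⟩ := hTAU (1 / 100000) (by norm_num)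
  refine ⟨max Z1 Z2, ?_⟩
  intro Z hZ q D₀ Γ hSm hD₀ hD₀q hΓ
  replace hE := hE Z ((le_max_left _ _).trans hZ) q hSm
  replace hT := (hT Z ((le_max_right _ _).trans hZ) q hSm).1
  set G : ℝ := 16 * (Γ : ℝ) with hG
  have hΓ1 : (1 : ℝ) ≤ Γ := by exact_mod_cast hΓ
  have hG0 : 0 < G := by rw [hG]; linarith
  obtain ⟨K1, hK1⟩ := JBG_large (3 / 5) (G ^ (1 / 10 : ℝ)) (by norm_num)
  obtain ⟨K2, hK2⟩ := JBG_large (34 / 100000) (4 * G ^ (4 / 100000 : ℝ)) (by norm_num)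
  refine ⟨max (max K1 K2) 1, ?_⟩
  intro K hK c₀ C₀ S hF N
  replace hK1 := hK1 K ((le_max_left _ _).trans ((le_max_left _ _).trans hK))
  replace hK2 := hK2 K ((le_max_right _ _).trans ((le_max_left _ _).trans hK))
  have hKn : 1 ≤ K := (le_max_right _ _).trans hK
  have hK1' : (1 : ℝ) ≤ K := by exact_mod_cast hKn
  set X : ℝ := (K : ℝ) with hX
  have hX0 : 0 < X := by linarith
  set R : ℝ := G * X ^ 4 with hR
  have hR0 : 0 < R := by positivity
  have hRs : ∀ s : ℝ, R ^ s = G ^ s * X ^ (4 * s) := by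
    intro s
    rw [hR, Real.mul_rpow hG0.le (by positivity), ← Real.rpow_natCast X 4, ← Real.rpow_mul hX0.le]
    norm_num
  have hcop : ∀ D ∈ S, D.Coprime (2 * q) := fun D hD => JBG_cop q D₀ D hD₀ hD₀q (hF.cls D hD)
  have hDR : ∀ D ∈ S, (D : ℝ) ≤ R := by
    intro D hD
    have h1 := hF.hi D hD
    have h2 : (D : ℝ) ≤ ((16 * Γ * K ^ 4 : ℕ) : ℝ) := by exact_mod_cast h1
    rw [hR, hG, hX]
    push_cast at h2
    exact h2
  have hD0 : ∀ D ∈ S, D ≠ 0 := fun D hD => (hF.sqf D hD).ne_zero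
  set Y : ℝ := R ^ (1 / 100000 : ℝ) with hY
  have hY0 : 0 < Y := Real.rpow_pos_of_pos hR0 _
  have hτ : ∀ D ∈ S, (D.divisors.card : ℝ) ≤ Y ∧ (40 : ℝ) ^ (om D) ≤ Y := by
    intro D hD
    obtain ⟨h1, h2⟩ := hT D (Nat.one_le_iff_ne_zero.2 (hD0 D hD)) (hcop D hD)
    have h3 : (D : ℝ) ^ (1 / 100000 : ℝ) ≤ Y :=
      Real.rpow_le_rpow (Nat.cast_nonneg _) (hDR D hD) (by norm_num)
    exact ⟨h1.trans h3, h2.trans h3⟩
  have hR10 : R ^ (1 / 10 : ℝ) * X ≤ X ^ 2 := by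
    rw [hRs]
    calc G ^ (1 / 10 : ℝ) * X ^ (4 * (1 / 10) : ℝ) * X
        ≤ X ^ (3 / 5 : ℝ) * X ^ (4 * (1 / 10) : ℝ) * X := by
          refine mul_le_mul_of_nonneg_right ?_ hX0.le
          exact mul_le_mul_of_nonneg_right hK1 (by positivity)
      _ = X ^ 2 := by
          rw [← Real.rpow_add hX0]
          norm_num
          ring
  -- the inner sum
  have hin : ∀ D ∈ S, ∑ D' ∈ S, (5 : ℝ) ^ (om (D.gcd D')) *
      ((D.gcd D' : ℕ) : ℝ) ^ (1 / 10 : ℝ) ≤ Y * (Y * (2 * X ^ 2)) := by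
    intro D hD
    refine JBG_inner S D (fun d => X ^ 2 / d + X) (2 * X ^ 2) Y (hD0 D hD) (by positivity) hY0.le
      (hτ D hD).1 ?_ ?_ ?_
    · intro d hd
      refine le_trans ?_ (hτ D hD).2
      have h1 : om d ≤ om D := Finset.card_le_card
        (Nat.primeFactors_mono (Nat.dvd_of_mem_divisors hd) (hD0 D hD))
      calc (20 : ℝ) ^ (om d) ≤ 20 ^ (om D) := pow_le_pow_right₀ (by norm_num) h1
        _ ≤ 40 ^ (om D) := pow_le_pow_left₀ (by norm_num) (by norm_num) _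
    · intro d hd
      have hdD := Nat.dvd_of_mem_divisors hd
      exact hF.dvd d ((hF.sqf D hD).squarefree_of_dvd hdD) ((hcop D hD).coprime_dvd_left hdD)
    · intro d hd
      have hdD := Nat.dvd_of_mem_divisors hd
      have hd0 : 0 < d := Nat.pos_of_mem_divisors hd
      have hd1 : (1 : ℝ) ≤ d := by exact_mod_cast hd0
      have hdR : (d : ℝ) ≤ R := by
        have h1 : d ≤ D := Nat.le_of_dvd (Nat.pos_of_ne_zero (hD0 D hD)) hdD
        have h2 : (d : ℝ) ≤ D := by exact_mod_cast h1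
        exact h2.trans (hDR D hD)
      have h1 : (d : ℝ) ^ (1 / 10 : ℝ) ≤ d := by
        calc (d : ℝ) ^ (1 / 10 : ℝ) ≤ (d : ℝ) ^ (1 : ℝ) :=
              Real.rpow_le_rpow_of_exponent_le hd1 (by norm_num)
          _ = d := Real.rpow_one _
      have h2 : (d : ℝ) ^ (1 / 10 : ℝ) * (X ^ 2 / d) ≤ X ^ 2 := by
        rw [← mul_div_assoc, div_le_iff₀ (by linarith)]
        calc (d : ℝ) ^ (1 / 10 : ℝ) * X ^ 2 ≤ d * X ^ 2 :=
              mul_le_mul_of_nonneg_right h1 (by positivity)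
          _ = _ := by ring
      have h3 : (d : ℝ) ^ (1 / 10 : ℝ) * X ≤ X ^ 2 := by
        refine le_trans ?_ hR10
        exact mul_le_mul_of_nonneg_right
          (Real.rpow_le_rpow (Nat.cast_nonneg _) hdR (by norm_num)) hX0.le
      show (d : ℝ) ^ (1 / 10 : ℝ) * (X ^ 2 / d + X) ≤ 2 * X ^ 2
      rw [mul_add]
      linarith
  -- one pair
  have hpair : ∀ D ∈ S, ∀ D' ∈ S,
      ∑ j ∈ (cop q N).filter (fun j => K < j ^ 100), wj j * gw D j * gw D' j ≤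
        X ^ (-(1 / 1000) : ℝ) * (2 * Y * Y * ((5 : ℝ) ^ (om (D.gcd D')) *
          ((D.gcd D' : ℕ) : ℝ) ^ (1 / 10 : ℝ))) := by
    intro D hD D' hD'
    have hnn : ∀ j, 0 ≤ wj j * gw D j * gw D' j := by
      intro j
      unfold wj gw
      positivity
    have h1 : ∑ j ∈ (cop q N).filter (fun j => K < j ^ 100), wj j * gw D j * gw D' j ≤
        ∑ j ∈ (cop q N).filter (fun j => K < j ^ 100), X ^ (-(1 / 1000) : ℝ) *
          (wj j * (j : ℝ) ^ (1 / 10 : ℝ) * gw D j * gw D' j) := by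
      refine Finset.sum_le_sum fun j hj => ?_
      rw [Finset.mem_filter] at hj
      have h2 : X ≤ (j : ℝ) ^ 100 := by
        have h3 := hj.2.le
        rw [hX]
        exact_mod_cast h3
      have h4 : X ^ (1 / 1000 : ℝ) ≤ (j : ℝ) ^ (1 / 10 : ℝ) := by
        calc X ^ (1 / 1000 : ℝ) ≤ ((j : ℝ) ^ 100) ^ (1 / 1000 : ℝ) :=
              Real.rpow_le_rpow hX0.le h2 (by norm_num)
          _ = (j : ℝ) ^ (1 / 10 : ℝ) := by
              rw [← Real.rpow_natCast (j : ℝ) 100, ← Real.rpow_mul (Nat.cast_nonneg _)]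
              norm_num
      have h5 : 1 ≤ X ^ (-(1 / 1000) : ℝ) * (j : ℝ) ^ (1 / 10 : ℝ) := by
        rw [Real.rpow_neg hX0.le, inv_mul_eq_div, le_div_iff₀ (Real.rpow_pos_of_pos hX0 _),
          one_mul]
        exact h4
      calc wj j * gw D j * gw D' j = 1 * (wj j * gw D j * gw D' j) := (one_mul _).symm
        _ ≤ (X ^ (-(1 / 1000) : ℝ) * (j : ℝ) ^ (1 / 10 : ℝ)) * (wj j * gw D j * gw D' j) :=
            mul_le_mul_of_nonneg_right h5 (hnn j)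
        _ = _ := by ring
    refine h1.trans ?_
    rw [← Finset.mul_sum]
    refine mul_le_mul_of_nonneg_left ?_ (Real.rpow_nonneg hX0.le _)
    have h6 : ∑ j ∈ (cop q N).filter (fun j => K < j ^ 100),
        wj j * (j : ℝ) ^ (1 / 10 : ℝ) * gw D j * gw D' j ≤
        ∑ j ∈ cop q N, wj j * (j : ℝ) ^ (1 / 10 : ℝ) * gw D j * gw D' j := by
      refine Finset.sum_le_sum_of_subset_of_nonneg (Finset.filter_subset _ _) fun j _ _ => ?_
      unfold wj gw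
      positivity
    refine h6.trans ((hE D D' N (hF.sqf D hD) (hF.sqf D' hD')).trans ?_)
    have h7 : ∀ E ∈ S, (2 : ℝ) ^ (om E) ≤ Y := by
      intro E hE'
      exact (pow_le_pow_left₀ (by norm_num) (by norm_num) _).trans (hτ E hE').2
    have h8 : (0 : ℝ) ≤ (5 : ℝ) ^ (om (D.gcd D')) * ((D.gcd D' : ℕ) : ℝ) ^ (1 / 10 : ℝ) := by
      positivity
    calc 2 * 2 ^ (om D) * 2 ^ (om D') * 5 ^ (om (D.gcd D')) * ((D.gcd D' : ℕ) : ℝ) ^ (1 / 10 : ℝ)
        = (2 * (2 ^ (om D) * 2 ^ (om D'))) *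
          (5 ^ (om (D.gcd D')) * ((D.gcd D' : ℕ) : ℝ) ^ (1 / 10 : ℝ)) := by ring
      _ ≤ (2 * (Y * Y)) * (5 ^ (om (D.gcd D')) * ((D.gcd D' : ℕ) : ℝ) ^ (1 / 10 : ℝ)) := by
          refine mul_le_mul_of_nonneg_right ?_ h8
          refine mul_le_mul_of_nonneg_left ?_ (by norm_num)
          exact mul_le_mul (h7 D hD) (h7 D' hD') (by positivity) hY0.le
      _ = _ := by ring
  -- total
  have hXn : 0 ≤ X ^ (-(1 / 1000) : ℝ) := Real.rpow_nonneg hX0.le _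
  have hSc : (S.card : ℝ) ≤ X ^ 2 := by
    rw [hX]
    exact_mod_cast hF.card_le
  calc ∑ D ∈ S, ∑ D' ∈ S, ∑ j ∈ (cop q N).filter (fun j => K < j ^ 100),
        wj j * gw D j * gw D' j
      ≤ ∑ D ∈ S, X ^ (-(1 / 1000) : ℝ) * (2 * Y * Y * (Y * (Y * (2 * X ^ 2)))) := by
        refine Finset.sum_le_sum fun D hD => ?_
        calc ∑ D' ∈ S, ∑ j ∈ (cop q N).filter (fun j => K < j ^ 100), wj j * gw D j * gw D' j
            ≤ ∑ D' ∈ S, X ^ (-(1 / 1000) : ℝ) * (2 * Y * Y * ((5 : ℝ) ^ (om (D.gcd D')) *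
              ((D.gcd D' : ℕ) : ℝ) ^ (1 / 10 : ℝ))) :=
              Finset.sum_le_sum fun D' hD' => hpair D hD D' hD'
          _ = X ^ (-(1 / 1000) : ℝ) * (2 * Y * Y * ∑ D' ∈ S, ((5 : ℝ) ^ (om (D.gcd D')) *
              ((D.gcd D' : ℕ) : ℝ) ^ (1 / 10 : ℝ))) := by
              rw [Finset.mul_sum, Finset.mul_sum]
          _ ≤ _ := by
              refine mul_le_mul_of_nonneg_left ?_ hXn
              exact mul_le_mul_of_nonneg_left (hin D hD) (by positivity)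
    _ = S.card * (X ^ (-(1 / 1000) : ℝ) * (4 * Y ^ 4 * X ^ 2)) := by
        rw [Finset.sum_const, nsmul_eq_mul]
        ring
    _ ≤ X ^ 2 * (X ^ (-(1 / 1000) : ℝ) * (4 * Y ^ 4 * X ^ 2)) :=
        mul_le_mul_of_nonneg_right hSc (by positivity)
    _ ≤ X ^ (4 - 1 / 2000 : ℝ) := by
        have h9 : Y ^ 4 = G ^ (4 / 100000 : ℝ) * X ^ (16 / 100000 : ℝ) := by
          rw [hY, ← Real.rpow_natCast, ← Real.rpow_mul hR0.le, hRs]
          norm_num
        have h10 : X ^ 2 = X ^ (2 : ℝ) := by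
          rw [← Real.rpow_natCast]
          norm_num
        calc X ^ 2 * (X ^ (-(1 / 1000) : ℝ) * (4 * Y ^ 4 * X ^ 2))
            = (4 * G ^ (4 / 100000 : ℝ)) * (X ^ (16 / 100000 : ℝ) * (X ^ (2 : ℝ) *
              (X ^ (-(1 / 1000) : ℝ) * X ^ (2 : ℝ)))) := by rw [h9, ← h10]; ring
          _ ≤ X ^ (34 / 100000 : ℝ) * (X ^ (16 / 100000 : ℝ) * (X ^ (2 : ℝ) *
              (X ^ (-(1 / 1000) : ℝ) * X ^ (2 : ℝ)))) :=
              mul_le_mul_of_nonneg_right hK2 (by positivity)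
          _ = X ^ (4 - 1 / 2000 : ℝ) := by
              rw [← Real.rpow_add hX0, ← Real.rpow_add hX0, ← Real.rpow_add hX0,
                ← Real.rpow_add hX0]
              norm_num

end Pool.Agent.SU
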