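import Pool.Agent.helper40.SU.SpecB

/-! # Project su (MP_c66272_nt), row LSH: the large sieve -/

set_option autoImplicit false

open Finset

namespace Pool.Agent.SU

theorem LSH_nsq (D D' : ℕ) (hD : Squarefree D) (hD' : Squarefree D') (hne : D ≠ D') :
    ¬ IsSquare (D * D') := by
  rintro ⟨x, hx⟩
  have hD0 : D ≠ 0 := hD.ne_zero
  have h1 : D ∣ x ^ 2 := ⟨D', by rw [sq, hx]⟩
  have h2 : D ∣ x := (hD.dvd_pow_iff_dvd two_ne_zero).1 h1
  obtain ⟨y, rfl⟩ := h2
  have h3 : D' = y * y * D := by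
    apply Nat.eq_of_mul_eq_mul_left (Nat.pos_of_ne_zero hD0)
    rw [hx]
    ring
  have h4 : IsUnit y := hD' y ⟨D, h3⟩
  rw [Nat.isUnit_iff] at h4
  rw [h4] at h3
  apply hne
  omega

theorem LSH (hDUA : DUA_stmt) (hCHS : CHS_stmt) : LSH_stmt := by
  classical
  intro S R H hS β
  have hΔ : (0 : ℝ) ≤ (H : ℝ) + S.card * (R : ℝ) ^ 2 := by positivity
  refine hDUA ((Icc 1 H).filter (fun h => Odd h)) S (fun h D => (jacobiSym D h : ℝ)) _ hΔ ?_ β
  intro b
  set A := (Icc 1 H).filter (fun h => Odd h) with hA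
  let T : ℕ → ℕ → ℝ := fun D D' => ∑ h ∈ A, (jacobiSym D h : ℝ) * (jacobiSym D' h : ℝ)
  have h1 : ∑ h ∈ A, (∑ D ∈ S, b D * (jacobiSym D h : ℝ)) ^ 2 =
      ∑ D ∈ S, ∑ D' ∈ S, b D * b D' * T D D' := by
    calc ∑ h ∈ A, (∑ D ∈ S, b D * (jacobiSym D h : ℝ)) ^ 2
        = ∑ h ∈ A, ∑ D ∈ S, ∑ D' ∈ S, b D * b D' *
            ((jacobiSym D h : ℝ) * (jacobiSym D' h : ℝ)) := by
          refine Finset.sum_congr rfl fun h _ => ?_
          rw [sq, Finset.sum_mul_sum]
          refine Finset.sum_congr rfl fun D _ => Finset.sum_congr rfl fun D' _ => ?_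
          ring
      _ = ∑ D ∈ S, ∑ h ∈ A, ∑ D' ∈ S, b D * b D' *
            ((jacobiSym D h : ℝ) * (jacobiSym D' h : ℝ)) := Finset.sum_comm
      _ = ∑ D ∈ S, ∑ D' ∈ S, ∑ h ∈ A, b D * b D' *
            ((jacobiSym D h : ℝ) * (jacobiSym D' h : ℝ)) :=
          Finset.sum_congr rfl fun D _ => Finset.sum_comm
      _ = _ := by
          refine Finset.sum_congr rfl fun D _ => Finset.sum_congr rfl fun D' _ => ?_
          rw [← Finset.mul_sum]
  have hdiag : ∀ D, T D D ≤ H := by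
    intro D
    calc T D D ≤ ∑ _h ∈ A, (1 : ℝ) := by
          refine Finset.sum_le_sum fun h _ => ?_
          rcases jacobiSym.trichotomy (D : ℤ) h with h1 | h1 | h1 <;> rw [h1] <;> norm_num
      _ = (A.card : ℝ) := by simp
      _ ≤ H := by
          have h2 : A.card ≤ (Icc 1 H).card := Finset.card_filter_le _ _
          rw [Nat.card_Icc, Nat.add_sub_cancel] at h2
          exact_mod_cast h2
  have hoff : ∀ D ∈ S, ∀ D' ∈ S, D ≠ D' → |T D D'| ≤ (R : ℝ) ^ 2 := by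
    intro D hD D' hD' hne
    obtain ⟨s1, s2, s3⟩ := hS D hD
    obtain ⟨t1, t2, t3⟩ := hS D' hD'
    have h4 : (D * D') % 4 = 1 := by
      have h5 : D % 4 = 3 := by omega
      have h6 : D' % 4 = 3 := by omega
      rw [Nat.mul_mod, h5, h6]
    have hodd : Nat.Coprime 2 (D * D') := by
      rw [Nat.coprime_two_left, Nat.odd_iff]
      omega
    have h7 := hCHS (D * D') 2 1 h4 (LSH_nsq D D' s1 t1 hne) even_two hodd odd_one 0 H
    have h8 : T D D' = ((∑ g ∈ (Ioc 0 H).filter (fun g => g ≡ 1 [MOD 2]),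
        jacobiSym ((D * D' : ℕ) : ℤ) g : ℤ) : ℝ) := by
      have hAA : A = (Ioc 0 H).filter (fun g => g ≡ 1 [MOD 2]) := by
        rw [hA]
        ext g
        rw [Finset.mem_filter, Finset.mem_filter, Finset.mem_Icc, Finset.mem_Ioc, Nat.odd_iff]
        constructor
        · rintro ⟨⟨u1, u2⟩, u3⟩
          exact ⟨⟨by omega, u2⟩, u3⟩
        · rintro ⟨⟨u1, u2⟩, u3⟩
          exact ⟨⟨by omega, u2⟩, u3⟩
      show ∑ h ∈ A, (jacobiSym D h : ℝ) * (jacobiSym D' h : ℝ) = _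
      rw [hAA]
      push_cast
      refine Finset.sum_congr rfl fun g _ => ?_
      rw [jacobiSym.mul_left]
      push_cast
      rfl
    have h9 : |T D D'| ≤ ((D * D' : ℕ) : ℝ) := by
      rw [h8]
      exact_mod_cast h7
    refine h9.trans ?_
    push_cast
    rw [sq]
    have u1 : (D : ℝ) ≤ R := by exact_mod_cast s3
    have u2 : (D' : ℝ) ≤ R := by exact_mod_cast t3
    exact mul_le_mul u1 u2 (Nat.cast_nonneg _) (Nat.cast_nonneg _)
  rw [h1]
  have h2 : ∀ D ∈ S, ∀ D' ∈ S, b D * b D' * T D D' ≤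
      (if D = D' then (H : ℝ) * b D ^ 2 else 0) + (R : ℝ) ^ 2 * (|b D| * |b D'|) := by
    intro D hD D' hD'
    by_cases h : D = D'
    · subst h
      rw [if_pos rfl]
      have h3 : b D * b D * T D D ≤ (H : ℝ) * b D ^ 2 := by
        have h4 := mul_le_mul_of_nonneg_left (hdiag D) (sq_nonneg (b D))
        calc b D * b D * T D D = b D ^ 2 * T D D := by ring
          _ ≤ b D ^ 2 * H := h4
          _ = _ := by ring
      have h5 : 0 ≤ (R : ℝ) ^ 2 * (|b D| * |b D|) := by positivity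
      linarith
    · rw [if_neg h, zero_add]
      calc b D * b D' * T D D' ≤ |b D * b D' * T D D'| := le_abs_self _
        _ = |T D D'| * (|b D| * |b D'|) := by rw [abs_mul, abs_mul]; ring
        _ ≤ _ := mul_le_mul_of_nonneg_right (hoff D hD D' hD' h) (by positivity)
  calc ∑ D ∈ S, ∑ D' ∈ S, b D * b D' * T D D'
      ≤ ∑ D ∈ S, ∑ D' ∈ S, ((if D = D' then (H : ℝ) * b D ^ 2 else 0) +
          (R : ℝ) ^ 2 * (|b D| * |b D'|)) :=
        Finset.sum_le_sum fun D hD => Finset.sum_le_sum fun D' hD' => h2 D hD D' hD'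
    _ = (H : ℝ) * ∑ D ∈ S, b D ^ 2 + (R : ℝ) ^ 2 * (∑ D ∈ S, |b D|) ^ 2 := by
        simp only [Finset.sum_add_distrib]
        congr 1
        · rw [Finset.mul_sum]
          refine Finset.sum_congr rfl fun D hD => ?_
          rw [Finset.sum_ite_eq, if_pos hD]
        · rw [sq (∑ D ∈ S, |b D|), Finset.sum_mul_sum, Finset.mul_sum]
          refine Finset.sum_congr rfl fun D _ => ?_
          rw [Finset.mul_sum]
    _ ≤ (H : ℝ) * ∑ D ∈ S, b D ^ 2 + (R : ℝ) ^ 2 * (S.card * ∑ D ∈ S, b D ^ 2) := by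
        have h6 : (∑ D ∈ S, |b D|) ^ 2 ≤ (S.card : ℝ) * ∑ D ∈ S, b D ^ 2 := by
          have h7 := sq_sum_le_card_mul_sum_sq (s := S) (f := fun D => |b D|)
          simp only [sq_abs] at h7
          exact h7
        have h8 : (0 : ℝ) ≤ (R : ℝ) ^ 2 := by positivity
        have := mul_le_mul_of_nonneg_left h6 h8
        linarith
    _ = _ := by ring

end Pool.Agent.SU
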