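import Pool.Agent.helper40.SU.SpecB

/-! # Project su (MP_c66272_nt), row PWJ: one dyadic block, large moduli -/

set_option autoImplicit false

open Finset

namespace Pool.Agent.SU

theorem PWJ_large (a c : ℝ) (ha : 0 < a) : ∃ n₀ : ℕ, ∀ n : ℕ, n₀ ≤ n → c ≤ (n : ℝ) ^ a := by
  have h := (tendsto_rpow_atTop ha).comp (tendsto_natCast_atTop_atTop (R := ℝ))
  exact Filter.eventually_atTop.1 (h.eventually_ge_atTop c)

theorem PWJ (hGC3 : GC3_stmt) (hPOW : POW_stmt) (hTAU : TAU_stmt) : PWJ_stmt := by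
  classical
  obtain ⟨Z1, hT⟩ := hTAU (1 / 1000000) (by norm_num)
  obtain ⟨k, hk⟩ : ∃ k : ℕ, k = 4 * 20 := ⟨_, rfl⟩
  have hkR : (k : ℝ) = 80 := by rw [hk]; norm_num
  have hk1 : 1 ≤ k := by omega
  have hk0 : k ≠ 0 := by omega
  refine ⟨max Z1 256, ?_⟩
  intro Z hZ q D₀ Γ hSm hD₀ hD₀q hΓ
  have hT := (hT Z ((le_max_left _ _).trans hZ) q hSm).1
  have hSm256 : Sm 256 q := fun p hp hp2 => hSm p hp (hp2.trans ((le_max_right _ _).trans hZ))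
  obtain ⟨K1, hK1⟩ := PWJ_large (1375 / 10000) (4 * (2 ^ k * 2 ^ k)) (by norm_num)
  refine ⟨max (max K1 (256 * Γ ^ 2)) 1, ?_⟩
  intro K hK c₀ C₀ S hF j G hj hjK hjq hKG hGK
  have hK1 := hK1 K ((le_max_left _ _).trans ((le_max_left _ _).trans hK))
  have hK2 : 256 * Γ ^ 2 ≤ K := (le_max_right _ _).trans ((le_max_left _ _).trans hK)
  have hKn : 1 ≤ K := (le_max_right _ _).trans hK
  have hG1 : 1 ≤ G := by
    rcases Nat.eq_zero_or_pos G with h | h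
    · rw [h] at hKG
      norm_num at hKG
      omega
    · exact h
  have hjK' : j ≤ K := (Nat.le_self_pow (by norm_num) j).trans hjK
  obtain ⟨hg1, -⟩ := hGC3 c₀ C₀ q D₀ Γ K S hSm256 hF j hj hjK' hjq
  have hK1' : (1 : ℝ) ≤ K := by exact_mod_cast hKn
  have hΓ1 : (1 : ℝ) ≤ Γ := by exact_mod_cast hΓ
  have hjX0 : (j : ℝ) ^ 100 ≤ K := by exact_mod_cast hjK
  have hGX0 : (G : ℝ) ≤ (K : ℝ) ^ 41 := by exact_mod_cast hGK
  have hSc0 : (S.card : ℝ) ≤ (K : ℝ) ^ 2 := by exact_mod_cast hF.card_le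
  obtain ⟨X, hX⟩ : ∃ X : ℝ, X = (K : ℝ) := ⟨_, rfl⟩
  rw [← hX] at hK1 hK1' hjX0 hGX0 hSc0 hg1 ⊢
  have hX0 : 0 < X := by linarith
  have hG0 : (0 : ℝ) < G := by exact_mod_cast hG1
  have hj1 : (1 : ℝ) ≤ j := by exact_mod_cast hj
  have hj0 : (0 : ℝ) < j := by linarith
  obtain ⟨𝒢, h𝒢⟩ : ∃ 𝒢, 𝒢 = (Ioc G (2 * G)).filter (fun g => g.Coprime (2 * q)) := ⟨_, rfl⟩
  rw [← h𝒢]
  have h𝒢m : ∀ g ∈ 𝒢, Odd g ∧ g ≤ 2 * G ∧ g.Coprime (2 * q) := by
    intro g hg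
    rw [h𝒢, Finset.mem_filter, Finset.mem_Ioc] at hg
    refine ⟨?_, hg.1.2, hg.2⟩
    exact Nat.coprime_two_right.1 (hg.2.coprime_dvd_right (dvd_mul_right 2 q))
  -- the members of the family
  have hS : ∀ D ∈ S, Squarefree D ∧ D % 8 = 3 ∧ D ≤ 16 * Γ * K ^ 4 := by
    intro D hD
    refine ⟨hF.sqf D hD, ?_, hF.hi D hD⟩
    have h1 : D ≡ D₀ [MOD (64 * q)] := hF.cls D hD
    have h2 : D ≡ D₀ [MOD 8] := h1.of_dvd ⟨8 * q, by ring⟩
    have h3 : D % 8 = D₀ % 8 := h2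
    rw [h3, hD₀]
  have hcard : S.card * (16 * Γ * K ^ 4) ^ 2 ≤ (2 * G) ^ k := by
    calc S.card * (16 * Γ * K ^ 4) ^ 2 ≤ K ^ 2 * (16 * Γ * K ^ 4) ^ 2 :=
          Nat.mul_le_mul_right _ hF.card_le
      _ = (256 * Γ ^ 2) * K ^ 10 := by ring
      _ ≤ K * K ^ 10 := Nat.mul_le_mul_right _ hK2
      _ = K ^ 11 := by ring
      _ ≤ K ^ 20 := Nat.pow_le_pow_right hKn (by norm_num)
      _ ≤ ((2 * G) ^ 4) ^ 20 := Nat.pow_le_pow_left hKG 20
      _ = (2 * G) ^ k := by rw [← pow_mul, ← hk]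
  obtain ⟨P, hP⟩ : ∃ P : ℝ, P = ((2 * G : ℕ) : ℝ) := ⟨_, rfl⟩
  have hPG : P = 2 * G := by rw [hP]; push_cast; ring
  have hP0 : 0 < P := by rw [hPG]; positivity
  obtain ⟨ρ, hρ⟩ : ∃ ρ : ℝ, ρ = P ^ (64 / 10000 : ℝ) := ⟨_, rfl⟩
  have hρ0 : 0 ≤ ρ := by rw [hρ]; exact Real.rpow_nonneg hP0.le _
  have hρt : ∀ t : Fin k → ℕ, (∀ i, t i ∈ 𝒢) → ((∏ i, t i).divisors.card : ℝ) ^ k ≤ ρ := by
    intro t ht
    have h1 : 1 ≤ ∏ i, t i := by
      apply Nat.one_le_iff_ne_zero.2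
      apply Finset.prod_ne_zero_iff.2
      intro i _ h0
      have h2 := (h𝒢m (t i) (ht i)).1
      rw [h0] at h2
      exact absurd h2 (by decide)
    have h2 : (∏ i, t i).Coprime (2 * q) :=
      Nat.Coprime.prod_left fun i _ => (h𝒢m (t i) (ht i)).2.2
    have h3 := (hT _ h1 h2).1
    have h4 : ((∏ i, t i : ℕ) : ℝ) ≤ P ^ k := by
      have h5 : ∏ i, t i ≤ (2 * G) ^ k := by
        calc ∏ i, t i ≤ ∏ _i : Fin k, (2 * G) :=
              Finset.prod_le_prod' fun i _ => (h𝒢m (t i) (ht i)).2.1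
          _ = (2 * G) ^ k := by rw [Finset.prod_const, Finset.card_univ, Fintype.card_fin]
      rw [hP]
      calc ((∏ i, t i : ℕ) : ℝ) ≤ (((2 * G) ^ k : ℕ) : ℝ) := Nat.cast_le.2 h5
        _ = _ := Nat.cast_pow _ _
    calc ((∏ i, t i).divisors.card : ℝ) ^ k
        ≤ (((∏ i, t i : ℕ) : ℝ) ^ (1 / 1000000 : ℝ)) ^ k :=
          pow_le_pow_left₀ (Nat.cast_nonneg _) h3 k
      _ ≤ ((P ^ k) ^ (1 / 1000000 : ℝ)) ^ k := by
          refine pow_le_pow_left₀ (by positivity) ?_ k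
          exact Real.rpow_le_rpow (Nat.cast_nonneg _) h4 (by norm_num)
      _ = ρ := by
          rw [hρ, ← Real.rpow_natCast P k, ← Real.rpow_mul hP0.le, ← Real.rpow_natCast,
            ← Real.rpow_mul hP0.le, hkR]
          norm_num
  have hpow := hPOW S 𝒢 (16 * Γ * K ^ 4) k G ρ hS hk1 hcard
    (fun g hg => ⟨(h𝒢m g hg).1, (h𝒢m g hg).2.1⟩) hρ0 hρt (fun D => cD D * gw D j)
  obtain ⟨V, hV⟩ : ∃ V : ℝ, V = ∑ g ∈ 𝒢, Bj S j g ^ 2 := ⟨_, rfl⟩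
  have hV0 : 0 ≤ V := by rw [hV]; exact Finset.sum_nonneg fun _ _ => sq_nonneg _
  have hVe : ∑ g ∈ 𝒢, (∑ D ∈ S, cD D * gw D j * (jacobiSym D g : ℝ)) ^ 2 = V := hV.symm
  rw [hVe, ← hP] at hpow
  rw [← hV]
  -- the sum of the squares of the coefficients
  obtain ⟨A, hA⟩ : ∃ A : ℝ, A = (5 : ℝ) ^ (om j) * √(j : ℝ) := ⟨_, rfl⟩
  have hA0 : 0 ≤ A := by rw [hA]; positivity
  have hW : ∑ D ∈ S, (cD D * gw D j) ^ 2 ≤ 2 * A / X ^ 2 := by
    have h1 : ∀ D ∈ S, (cD D * gw D j) ^ 2 ≤ (1 / X ^ 4) * gw D j ^ 2 := by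
      intro D hD
      rw [mul_pow]
      refine mul_le_mul_of_nonneg_right ?_ (sq_nonneg _)
      have h2 : X ^ 4 ≤ D := by
        have h3 := hF.lo D hD
        have h4 : ((Γ * K ^ 4 : ℕ) : ℝ) ≤ D := Nat.cast_le.2 h3
        push_cast at h4
        rw [hX]
        refine le_trans ?_ h4
        exact le_mul_of_one_le_left (by positivity) hΓ1
      unfold cD
      rw [div_pow, one_pow, Real.sq_sqrt (Nat.cast_nonneg _)]
      exact one_div_le_one_div_of_le (by positivity) h2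
    calc ∑ D ∈ S, (cD D * gw D j) ^ 2 ≤ ∑ D ∈ S, (1 / X ^ 4) * gw D j ^ 2 :=
          Finset.sum_le_sum h1
      _ = (1 / X ^ 4) * ∑ D ∈ S, gw D j ^ 2 := by rw [Finset.mul_sum]
      _ ≤ (1 / X ^ 4) * (2 * X ^ 2 * 5 ^ (om j) * √(j : ℝ)) :=
          mul_le_mul_of_nonneg_left hg1 (by positivity)
      _ = 2 * A / X ^ 2 := by
          rw [hA]
          field_simp
  have hW0 : 0 ≤ ∑ D ∈ S, (cD D * gw D j) ^ 2 := Finset.sum_nonneg fun _ _ => sq_nonneg _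
  -- bounds for the factors
  have hjX : (j : ℝ) ≤ X ^ (1 / 100 : ℝ) := by
    calc (j : ℝ) = ((j : ℝ) ^ 100) ^ (1 / 100 : ℝ) := by
          rw [← Real.rpow_natCast (j : ℝ) 100, ← Real.rpow_mul hj0.le]
          norm_num
      _ ≤ _ := Real.rpow_le_rpow (by positivity) hjX0 (by norm_num)
  have hAk : A ^ k ≤ X ^ (1 / 10000 : ℝ) * X ^ (2 / 5 : ℝ) := by
    have h1 : ((5 : ℝ) ^ (om j)) ^ k ≤ X ^ (1 / 10000 : ℝ) := by
      have h2 : (5 : ℝ) ^ (om j) ≤ (X ^ (1 / 100 : ℝ)) ^ (1 / 1000000 : ℝ) := by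
        calc (5 : ℝ) ^ (om j) ≤ 40 ^ (om j) := pow_le_pow_left₀ (by norm_num) (by norm_num) _
          _ ≤ (j : ℝ) ^ (1 / 1000000 : ℝ) := (hT j hj hjq).2
          _ ≤ _ := Real.rpow_le_rpow hj0.le hjX (by norm_num)
      calc ((5 : ℝ) ^ (om j)) ^ k ≤ ((X ^ (1 / 100 : ℝ)) ^ (1 / 1000000 : ℝ)) ^ k :=
            pow_le_pow_left₀ (by positivity) h2 k
        _ = X ^ (1 / 100 * (1 / 1000000) * 80 : ℝ) := by
            rw [← Real.rpow_mul hX0.le, ← Real.rpow_natCast, ← Real.rpow_mul hX0.le, hkR]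
        _ ≤ _ := Real.rpow_le_rpow_of_exponent_le hK1' (by norm_num)
    have h3 : (√(j : ℝ)) ^ k ≤ X ^ (2 / 5 : ℝ) := by
      have h4 : √(j : ℝ) ≤ X ^ (1 / 200 : ℝ) := by
        rw [Real.sqrt_eq_rpow]
        calc (j : ℝ) ^ (1 / 2 : ℝ) ≤ (X ^ (1 / 100 : ℝ)) ^ (1 / 2 : ℝ) :=
              Real.rpow_le_rpow hj0.le hjX (by norm_num)
          _ = _ := by
              rw [← Real.rpow_mul hX0.le]
              norm_num
      calc (√(j : ℝ)) ^ k ≤ (X ^ (1 / 200 : ℝ)) ^ k :=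
            pow_le_pow_left₀ (Real.sqrt_nonneg _) h4 k
        _ = X ^ (2 / 5 : ℝ) := by
            rw [← Real.rpow_natCast, ← Real.rpow_mul hX0.le, hkR]
            norm_num
    rw [hA, mul_pow]
    exact mul_le_mul h1 h3 (by positivity) (by positivity)
  have hρb : ρ ≤ 2 * X ^ (2624 / 10000 : ℝ) := by
    have h1 : P ≤ 2 * X ^ 41 := by
      rw [hPG]
      linarith
    calc ρ = P ^ (64 / 10000 : ℝ) := hρ
      _ ≤ (2 * X ^ 41) ^ (64 / 10000 : ℝ) := Real.rpow_le_rpow hP0.le h1 (by norm_num)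
      _ = (2 : ℝ) ^ (64 / 10000 : ℝ) * X ^ (2624 / 10000 : ℝ) := by
          rw [Real.mul_rpow (by norm_num) (by positivity), ← Real.rpow_natCast X 41,
            ← Real.rpow_mul hX0.le]
          norm_num
      _ ≤ 2 * X ^ (2624 / 10000 : ℝ) := by
          refine mul_le_mul_of_nonneg_right ?_ (by positivity)
          calc (2 : ℝ) ^ (64 / 10000 : ℝ) ≤ 2 ^ (1 : ℝ) :=
                Real.rpow_le_rpow_of_exponent_le (by norm_num) (by norm_num)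
            _ = 2 := Real.rpow_one 2
  -- the power
  have hVk : V ^ k ≤ ((G : ℝ) * X ^ (-(3 / 200) : ℝ)) ^ k := by
    calc V ^ k ≤ (S.card : ℝ) ^ (k - 1) * (2 * P ^ k) * ρ *
          (∑ D ∈ S, (cD D * gw D j) ^ 2) ^ k := hpow
      _ ≤ (X ^ 2) ^ (k - 1) * (2 * P ^ k) * (2 * X ^ (2624 / 10000 : ℝ)) *
          (2 * A / X ^ 2) ^ k := by
          refine mul_le_mul ?_ (pow_le_pow_left₀ hW0 hW k) (pow_nonneg hW0 k) (by positivity)
          refine mul_le_mul ?_ hρb hρ0 (by positivity)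
          refine mul_le_mul_of_nonneg_right ?_ (by positivity)
          exact pow_le_pow_left₀ (Nat.cast_nonneg _) hSc0 _
      _ = (G : ℝ) ^ k * (4 * (2 ^ k * 2 ^ k) * (X ^ (2624 / 10000 : ℝ) *
          ((X ^ 2)⁻¹ * A ^ k))) := by
          have h1 : X ^ 2 ≠ 0 := by positivity
          have h2 : (2 * A / X ^ 2) ^ k = 2 ^ k * A ^ k * ((X ^ 2)⁻¹) ^ k := by
            rw [div_eq_mul_inv, mul_pow, mul_pow]
          have h3 : (X ^ 2) ^ (k - 1) * ((X ^ 2)⁻¹) ^ k = (X ^ 2)⁻¹ := by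
            have h4 : ((X ^ 2)⁻¹) ^ k = ((X ^ 2)⁻¹) ^ (k - 1) * (X ^ 2)⁻¹ := by
              rw [← pow_succ]
              congr 1
              omega
            rw [h4, ← mul_assoc, ← mul_pow, mul_inv_cancel₀ h1, one_pow, one_mul]
          rw [h2, hPG, mul_pow 2 (G : ℝ) k]
          calc (X ^ 2) ^ (k - 1) * (2 * (2 ^ k * (G : ℝ) ^ k)) * (2 * X ^ (2624 / 10000 : ℝ)) *
                (2 ^ k * A ^ k * ((X ^ 2)⁻¹) ^ k)
              = (G : ℝ) ^ k * (4 * (2 ^ k * 2 ^ k) * (X ^ (2624 / 10000 : ℝ) *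
                (((X ^ 2) ^ (k - 1) * ((X ^ 2)⁻¹) ^ k) * A ^ k))) := by ring
            _ = _ := by rw [h3]
      _ ≤ (G : ℝ) ^ k * (X ^ (1375 / 10000 : ℝ) * (X ^ (2624 / 10000 : ℝ) * ((X ^ 2)⁻¹ *
          (X ^ (1 / 10000 : ℝ) * X ^ (2 / 5 : ℝ))))) := by
          refine mul_le_mul_of_nonneg_left ?_ (by positivity)
          refine mul_le_mul hK1 ?_ (by positivity) (by positivity)
          refine mul_le_mul_of_nonneg_left ?_ (by positivity)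
          exact mul_le_mul_of_nonneg_left hAk (by positivity)
      _ = ((G : ℝ) * X ^ (-(3 / 200) : ℝ)) ^ k := by
          rw [mul_pow]
          congr 1
          have h1 : (X ^ 2)⁻¹ = X ^ (-2 : ℝ) := by
            rw [Real.rpow_neg hX0.le]
            norm_num
          rw [h1, ← Real.rpow_add hX0, ← Real.rpow_add hX0, ← Real.rpow_add hX0,
            ← Real.rpow_add hX0, ← Real.rpow_natCast, ← Real.rpow_mul hX0.le, hkR]
          norm_num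
  have hfin : V ≤ (G : ℝ) * X ^ (-(3 / 200) : ℝ) :=
    (pow_le_pow_iff_left₀ hV0 (by positivity) hk0).1 hVk
  rw [one_div, inv_mul_le_iff₀ hG0]
  exact hfin

end Pool.Agent.SU
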